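import Mathlib
import Pool.Agent.X238.Rec.Main
import Pool.Agent.X238.Rec.Infinite

set_option autoImplicit false

/-!
# Functions determined by content and singletons are weakly reconstructible

Let `f, g : A ^ n → B` be determined by content and singletons and have the same deck of
identification minors. If `A` is finite and `n ≥ |A| ^ 2 + 4`, then `f` and `g` are similar; more
precisely `g` is `f` or `f` with its arguments in reversed order. If `A` is infinite and `B` has two
elements, then for every `n ≥ 2` there are two such functions that are not similar. So the answer to
Q2 (weak reconstructibility) is yes for all finite `A` and for `|B| = 1`, and no for all other pairs.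

Proof for finite `A`. Equality of the decks gives a permutation `τ` which carries the minor `f_{12}`
to a minor `g_{ij}`. Some element `x` occurs three times in a given tuple `c`. Rearranging `c` does
not change the value of `f` as long as the order of the singletons is kept, so we can put `x` to the
places `1, 2` and to the place which `τ` carries to `i`, and the singletons to any other places;
then the content on the side of `g` is the content of `c`. By the theorem of Erdős and Szekeres
these places can be chosen so that `τ` preserves (or reverses) their order, and whether it preserves
or reverses does not depend on `c`.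
-/

namespace Pool.Agent.Results.MP_75c0e8_co.WeakReconstructibility

open Pool.Agent.X238.Rec

universe u v

/-- Weak reconstructibility of the functions `A ^ (n + 1) → B` which are determined by content and
singletons. -/
def WeaklyReconstructible (A : Type u) (B : Type v) (n : ℕ) : Prop :=
  ∀ f g : (Fin (n + 1) → A) → B, DetCS f → DetCS g → deck f = deck g → Similar f g

/-- Weak reconstructibility for finite `A` and arity at least `|A| ^ 2 + 4`, counterexamples in all
arities for infinite `A`, and the complete answer to the question for which `A`, `B` it holds in all
large arities. -/
theorem result :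
    (∀ (A : Type u) (B : Type v) [Finite A] (n : ℕ), Nat.card A ^ 2 + 4 ≤ n + 1 →
      WeaklyReconstructible A B n ∧
      ∀ f g : (Fin (n + 1) → A) → B, DetCS f → DetCS g → deck f = deck g →
        (∀ a, f a = g a) ∨ ∀ a, f a = g (fun i => a (Fin.rev i))) ∧
    (∀ (A : Type u) (B : Type v) [Infinite A] [Nontrivial B] (n : ℕ), 1 ≤ n →
      ∃ f g : (Fin (n + 1) → A) → B, DetCS f ∧ DetCS g ∧ deck f = deck g ∧ ¬ Similar f g) ∧
    (∀ (A : Type u) (B : Type v), (∃ N, ∀ n, N ≤ n + 1 → WeaklyReconstructible A B n) ↔
      Finite A ∨ Subsingleton B) := by
  refine ⟨?_, ?_, ?_⟩
  · intro A B _ n hn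
    exact ⟨fun f g hf hg hd => weak_rec_similar hn hf hg hd,
      fun f g hf hg hd => weak_rec hn hf hg hd⟩
  · intro A B _ _ n hn
    exact infinite_case hn
  · intro A B
    constructor
    · rintro ⟨N, hN⟩
      by_contra hcon
      rw [not_or, not_finite_iff_infinite, not_subsingleton_iff_nontrivial] at hcon
      obtain ⟨hA, hB⟩ := hcon
      obtain ⟨f, g, hf, hg, hd, hs⟩ := infinite_case (A := A) (B := B) (n := N + 1) (by omega)
      exact hs (hN (N + 1) (by omega) f g hf hg hd)
    · rintro (hA | hB)
      · exact ⟨Nat.card A ^ 2 + 4, fun n hn f g hf hg hd => weak_rec_similar hn hf hg hd⟩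
      · exact ⟨0, fun n _ f g _ _ _ => ⟨Equiv.refl _, fun a => Subsingleton.elim _ _⟩⟩

end Pool.Agent.Results.MP_75c0e8_co.WeakReconstructibility
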